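import Pool.Agent.TH53.PC2

/-!
# MP_0340c4_al, Q1 (negated)

There is a total clone `C` on a five-element set for which the interval `I_Str(C)` is countably
infinite.  So it is not true that, for all total clones on finite sets with at least three
elements, `I_D(C)` and `I_Str(C)` are both finite or both of the cardinality of the continuum.
-/

set_option autoImplicit false

namespace Pool.Agent.Results.MP_0340c4_al.CountableInterval

/-- Partial operations of arity `n + 1` on the set `A`; `none` means `undefined`. -/
abbrev POp (A : Type) (n : ℕ) : Type := (Fin (n + 1) → A) → Option A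

/-- Families of partial operations, sorted by arity. -/
abbrev PFam (A : Type) : Type := (n : ℕ) → Set (POp A n)

/-- Families of total operations, sorted by arity. -/
abbrev TFam (A : Type) : Type := (n : ℕ) → Set ((Fin (n + 1) → A) → A)

/-- The composition `f(g₀, …, gₙ)`: it is defined at `x` exactly when every `gᵢ(x)` is defined
and the tuple of these values lies in the domain of `f`. -/
def comp {A : Type} {n m : ℕ} (f : POp A n) (g : Fin (n + 1) → POp A m) : POp A m := fun x =>
  if h : ∀ i, (g i x).isSome = true then f (fun i => (g i x).get (h i)) else none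

/-- A partial clone: closed under composition and containing all (total) projections. -/
def IsPartialClone {A : Type} (X : PFam A) : Prop :=
  (∀ (n : ℕ) (i : Fin (n + 1)), (fun x : Fin (n + 1) → A => some (x i)) ∈ X n) ∧
  ∀ (n m : ℕ) (f : POp A n) (g : Fin (n + 1) → POp A m),
    f ∈ X n → (∀ i, g i ∈ X m) → comp f g ∈ X m

/-- Strong: closed under restricting the domain of a function. -/
def IsStrong {A : Type} (X : PFam A) : Prop :=
  ∀ (n : ℕ) (f g : POp A n), g ∈ X n → (∀ x b, f x = some b → g x = some b) → f ∈ X n

/-- A total clone. -/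
def IsTotalClone {A : Type} (C : TFam A) : Prop :=
  (∀ (n : ℕ) (i : Fin (n + 1)), (fun x : Fin (n + 1) → A => x i) ∈ C n) ∧
  ∀ (n m : ℕ) (f : (Fin (n + 1) → A) → A) (g : Fin (n + 1) → (Fin (m + 1) → A) → A),
    f ∈ C n → (∀ i, g i ∈ C m) → (fun x => f (fun i => g i x)) ∈ C m

/-- The total members of `X` are exactly the members of `C`, i.e. `X ∩ O_A = C`. -/
def TotalPart {A : Type} (X : PFam A) (C : TFam A) : Prop :=
  ∀ (n : ℕ) (f : (Fin (n + 1) → A) → A), (fun x => some (f x)) ∈ X n ↔ f ∈ C n

/-- `I_D(C)`. -/
def ID {A : Type} (C : TFam A) : Set (PFam A) := {X | IsPartialClone X ∧ TotalPart X C}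

/-- `I_Str(C)`. -/
def IStr {A : Type} (C : TFam A) : Set (PFam A) :=
  {X | IsPartialClone X ∧ IsStrong X ∧ TotalPart X C}

lemma comp_eq_some {A : Type} {n m : ℕ} (f : POp A n) (g : Fin (n + 1) → POp A m)
    (x : Fin (m + 1) → A) (b : A) :
    comp f g x = some b ↔ ∃ y : Fin (n + 1) → A, (∀ i, g i x = some (y i)) ∧ f y = some b := by
  unfold comp
  split_ifs with h
  · constructor
    · intro hb
      exact ⟨fun i => (g i x).get (h i), fun i => (Option.some_get (h i)).symm, hb⟩
    · rintro ⟨y, hy, hf⟩
      have : (fun i => (g i x).get (h i)) = y := by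
        funext i
        simp [hy i]
      rw [this]
      exact hf
  · constructor
    · intro hb
      simp at hb
    · rintro ⟨y, hy, -⟩
      exact absurd (fun i => by rw [hy i]; rfl) h

open Pool.Agent.TH53.PC in
lemma interval_eq : IStr Pool.Agent.TH53.PC.C = Pool.Agent.TH53.PC.Interval := by
  ext X
  constructor
  · rintro ⟨h1, h2, h3⟩
    refine ⟨⟨h1.1, ?_, fun n f h hf hh => h2 n h f hf hh⟩, fun n f => (h3 n f).symm⟩
    intro n m f g h hf hg hh
    have : h = comp f g := by
      funext x
      apply Option.ext
      intro b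
      rw [hh x b, comp_eq_some]
    rw [this]
    exact h1.2 n m f g hf hg
  · rintro ⟨h, h3⟩
    exact ⟨⟨h.proj, fun n m f g hf hg => h.comp n m f g _ hf hg (fun x b => comp_eq_some f g x b)⟩,
      fun n f g hg hh => h.restr n g f hg hh, fun n f => (h3 n f).symm⟩

/-- There are a finite set with at least three elements (namely five) and a total clone `C` on
it such that `I_Str(C)` is countably infinite; in particular `I_D(C)` and `I_Str(C)` are neither
both finite nor both of the cardinality of the continuum. -/
theorem result : ∃ k : ℕ, 3 ≤ k ∧ ∃ C : TFam (Fin k), IsTotalClone C ∧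
    (IStr C).Infinite ∧ (IStr C).Countable ∧
    ¬ (((ID C).Finite ∧ (IStr C).Finite) ∨
      (Cardinal.mk (ID C) = Cardinal.continuum ∧ Cardinal.mk (IStr C) = Cardinal.continuum)) := by
  refine ⟨5, by norm_num, Pool.Agent.TH53.PC.C,
    ⟨Pool.Agent.TH53.PC.C_proj, Pool.Agent.TH53.PC.C_comp⟩, ?_, ?_, ?_⟩
  · rw [interval_eq]
    exact Pool.Agent.TH53.PC.interval_infinite
  · rw [interval_eq]
    exact Pool.Agent.TH53.PC.interval_countable
  · rintro (⟨-, h⟩ | ⟨-, h⟩)
    · rw [interval_eq] at h
      exact Pool.Agent.TH53.PC.interval_infinite h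
    · rw [interval_eq] at h
      have h1 : Cardinal.mk Pool.Agent.TH53.PC.Interval ≤ Cardinal.aleph0 :=
        Cardinal.le_aleph0_iff_set_countable.2 Pool.Agent.TH53.PC.interval_countable
      rw [h] at h1
      exact absurd Cardinal.aleph0_lt_continuum (not_lt.2 h1)

end Pool.Agent.Results.MP_0340c4_al.CountableInterval
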